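import Mathlib
import Pool.Agent.NC.Systems
import Pool.Agent.WUPM.SysFO
import Pool.Agent.WUPM.SysTab
import Pool.Agent.WUPM.SysTime
import Pool.Agent.WUPM.SysAcc
import Pool.Agent.WUPM.SysFinal

/-!
# Unique minimum weight perfect matching on general graphs is in NC
-/

set_option autoImplicit false

namespace Pool.Agent.Results.MP_695160_lc.WeightedInNC

open Classical in
/-- For every polynomial `p`: the language of the (coded) weighted graphs with weights at most `p n` which
have exactly one perfect matching of minimum weight is in NC. Letter number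
`(a * n + b) * (p n + 1) + c` of the code is `true` iff `a` and `b` are adjacent and `c` is at most the
weight of the edge. -/
theorem result (p : Polynomial ℕ) : Pool.Agent.NC.InNC
    {x : List Bool | ∃ (n : ℕ) (G : SimpleGraph (Fin n)) (w : Sym2 (Fin n) → ℕ),
      (∀ e ∈ G.edgeSet, w e ≤ p.eval n) ∧
      (x = List.ofFn fun i : Fin (n * n * (p.eval n + 1)) =>
        decide (G.Adj i.divNat.divNat i.divNat.modNat ∧
          (i.modNat : ℕ) ≤ w s(i.divNat.divNat, i.divNat.modNat))) ∧
      ∃! M : G.Subgraph, M.IsPerfectMatching ∧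
        ∀ M' : G.Subgraph, M'.IsPerfectMatching →
          ∑ᶠ e ∈ M.edgeSet, w e ≤ ∑ᶠ e ∈ M'.edgeSet, w e} :=
  Pool.Agent.NC.nc_of_system 8 (Pool.Agent.WUPM.sys p) (Pool.Agent.WUPM.sys_fod p)
    (Pool.Agent.WUPM.sys_out p) 8 (Pool.Agent.WUPM.bnd p) (Pool.Agent.WUPM.tot p)
    (Pool.Agent.WUPM.nf_bnd p) (Pool.Agent.WUPM.nf_tot p) (Pool.Agent.WUPM.polyLog_tot p)
    (Pool.Agent.WUPM.wupmLang p)
    (Pool.Agent.WUPM.final_of
      (Pool.Agent.WUPM.timeStmt_of Pool.Agent.WUPM.stepStmt) Pool.Agent.WUPM.acc_sem p)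

end Pool.Agent.Results.MP_695160_lc.WeightedInNC
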